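import Pool.Agent.E8helper81.GZ.Stm
import Pool.Agent.E8helper63.SZ.Pos

/-!
# Piece GZ-R (MP_92f640_nt): `L(1, χ)` is real and nonnegative (helper52)
-/

set_option autoImplicit false

namespace Pool.Agent.E8helper52.GZ

open Finset Filter Topology Pool.Agent.E8helper22.SZ Pool.Agent.E8helper81.GZ

theorem t_R (h : S_A) : S_R := by
  intro q _ χ hq hχ
  have hlim : Tendsto (fun N : ℕ => (((∑ m ∈ Icc 1 N, tau χ m) / (N : ℝ) : ℝ) : ℂ)) atTop
      (𝓝 (χ.LFunction 1)) := by
    rw [tendsto_iff_norm_sub_tendsto_zero]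
    refine squeeze_zero' (g := fun N : ℕ => 20 * (q : ℝ) * (√(N : ℝ))⁻¹)
      (Eventually.of_forall fun N => norm_nonneg _) ?_ ?_
    · filter_upwards [eventually_ge_atTop 1] with N hN
      have hN0 : (0 : ℝ) < N := by exact_mod_cast hN
      have h1 := h q χ hq hχ N hN
      have h2 : ((((∑ m ∈ Icc 1 N, tau χ m) / (N : ℝ) : ℝ) : ℂ) - χ.LFunction 1) =
          (((∑ m ∈ Icc 1 N, tau χ m : ℝ) : ℂ) - N * χ.LFunction 1) / ((N : ℝ) : ℂ) := by
        have hNc : ((N : ℝ) : ℂ) ≠ 0 := by exact_mod_cast hN0.ne'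
        push_cast at hNc ⊢
        field_simp
      rw [h2, norm_div, Complex.norm_real, Real.norm_of_nonneg hN0.le]
      rw [div_le_iff₀ hN0]
      have h3 : 20 * (q : ℝ) * (√(N : ℝ))⁻¹ * N = 20 * q * √(N : ℝ) := by
        have hs : √(N : ℝ) ≠ 0 := (Real.sqrt_pos.2 hN0).ne'
        have : (N : ℝ) = √(N : ℝ) * √(N : ℝ) := (Real.mul_self_sqrt hN0.le).symm
        nth_rewrite 2 [this]
        field_simp
      rw [h3]
      exact h1
    · have h4 : Tendsto (fun N : ℕ => (√(N : ℝ))⁻¹) atTop (𝓝 0) :=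
        tendsto_inv_atTop_zero.comp (Real.tendsto_sqrt_atTop.comp tendsto_natCast_atTop_atTop)
      simpa using h4.const_mul (20 * (q : ℝ))
  have hre : Tendsto (fun N : ℕ => (∑ m ∈ Icc 1 N, tau χ m) / (N : ℝ)) atTop
      (𝓝 (χ.LFunction 1).re) := by
    have := (Complex.continuous_re.tendsto _).comp hlim
    simpa [Function.comp_def] using this
  have him : Tendsto (fun _ : ℕ => (0 : ℝ)) atTop (𝓝 (χ.LFunction 1).im) := by
    have := (Complex.continuous_im.tendsto _).comp hlim
    simpa [Function.comp_def, -Complex.ofReal_div, -Complex.ofReal_sum] using this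
  have him0 : (χ.LFunction 1).im = 0 := tendsto_nhds_unique him tendsto_const_nhds
  have hre0 : 0 ≤ (χ.LFunction 1).re := by
    refine ge_of_tendsto' hre fun N => ?_
    refine div_nonneg (Finset.sum_nonneg fun m hm => ?_) (Nat.cast_nonneg _)
    exact (Pool.Agent.E8helper63.SZ.t_POS q χ (by omega) hχ m (Finset.mem_Icc.1 hm).1).1
  have hval : χ.LFunction 1 = (((χ.LFunction 1).re : ℝ) : ℂ) := by
    apply Complex.ext <;> simp [him0]
  have hn : ‖χ.LFunction 1‖ = (χ.LFunction 1).re := by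
    rw [hval, Complex.norm_real, Real.norm_of_nonneg (by simpa using hre0)]
    simp
  rw [hn]
  exact hval

end Pool.Agent.E8helper52.GZ
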